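import Mathlib

set_option autoImplicit false
open Finset

namespace Pool.Agent.Results.MP_41928e_lc.No

section
variable {V : Type} [Fintype V] [DecidableEq V] {L : ℕ}

/-- directed paths from `s` with `L` edges -/
abbrev Path (E : Finset (V × V)) (s : V) (L : ℕ) : Type :=
  {p : Fin (L + 1) → V // p 0 = s ∧ ∀ i : Fin L, (p i.castSucc, p i.succ) ∈ E}

/-- the edge set of a path -/
def edges {E : Finset (V × V)} {s : V} (p : Path E s L) : Finset (V × V) :=
  univ.image fun i : Fin L => (p.1 i.castSucc, p.1 i.succ)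

/-- expected payoff of the attacker -/
def U {E : Finset (V × V)} {s : V} (x y : Path E s L → ℝ) : ℝ :=
  ∑ p, ∑ q, x p * y q * if Disjoint (edges p) (edges q) then 1 else 0

/-- Nash equilibrium: `x` defender, `y` attacker -/
def NE {E : Finset (V × V)} {s : V} (x y : Path E s L → ℝ) : Prop :=
  x ∈ stdSimplex ℝ (Path E s L) ∧ y ∈ stdSimplex ℝ (Path E s L) ∧
  (∀ y' ∈ stdSimplex ℝ (Path E s L), U x y' ≤ U x y) ∧
  ∀ x' ∈ stdSimplex ℝ (Path E s L), U x y ≤ U x' y
end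

def E0 : Finset (Fin 9 × Fin 9) :=
  {(0, 1), (0, 2), (1, 3), (1, 4), (2, 3), (3, 5), (3, 6), (4, 5), (5, 7), (5, 8), (6, 7)}

def pv : Fin 8 → Fin 5 → Fin 9 :=
  ![![0, 1, 3, 5, 7], ![0, 1, 3, 5, 8], ![0, 1, 3, 6, 7], ![0, 1, 4, 5, 7], ![0, 1, 4, 5, 8],
    ![0, 2, 3, 5, 7], ![0, 2, 3, 5, 8], ![0, 2, 3, 6, 7]]

def pth (i : Fin 8) : Path E0 0 4 := ⟨pv i, by revert i; decide +kernel⟩

lemma bij : Function.Bijective pth := by
  refine ⟨by decide +kernel, fun ⟨p, h0, h⟩ => ?_⟩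
  have key : ∀ a : Fin 9, (0, a) ∈ E0 → ∀ b, (a, b) ∈ E0 → ∀ c, (b, c) ∈ E0 → ∀ d, (c, d) ∈ E0 →
      ∃ i, pv i = ![0, a, b, c, d] := by decide +kernel
  obtain ⟨i, hi⟩ := key (p 1) (h0 ▸ h 0) (p 2) (h 1) (p 3) (h 2) (p 4) (h 3)
  refine ⟨i, Subtype.ext (hi.trans ?_)⟩
  ext j; fin_cases j <;> simp [h0]

def N : Fin 8 → Fin 8 → Bool :=
  ![![false, false, false, false, false, false, false, true],
    ![false, false, false, false, false, false, false, true],
    ![false, false, false, false, false, true, true, false],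
    ![false, false, false, false, false, false, true, true],
    ![false, false, false, false, false, true, false, true],
    ![false, false, true, false, true, false, false, false],
    ![false, false, true, true, false, false, false, false],
    ![true, true, false, true, true, false, false, false]]

lemma hN : ∀ i j, Disjoint (edges (pth i)) (edges (pth j)) ↔ N i j = true := by decide +kernel

lemma hU (x y : Path E0 0 4 → ℝ) : U x y =
    (x (pth 0) + x (pth 1)) * y (pth 7) + x (pth 2) * (y (pth 5) + y (pth 6)) +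
    x (pth 3) * (y (pth 6) + y (pth 7)) + x (pth 4) * (y (pth 5) + y (pth 7)) +
    x (pth 5) * (y (pth 2) + y (pth 4)) + x (pth 6) * (y (pth 2) + y (pth 3)) +
    x (pth 7) * (y (pth 0) + y (pth 1) + y (pth 3) + y (pth 4)) := by
  simp only [U, ← bij.sum_comp, hN]
  simp [Fin.sum_univ_eight, N]
  ring

theorem result : ∃ (lay : Fin 9 → Fin 5) (E : Finset (Fin 9 × Fin 9)) (s : Fin 9),
    Function.Surjective lay ∧ (∀ v, lay v = 0 ↔ v = s) ∧
    (∀ e ∈ E, (lay e.2).val = (lay e.1).val + 1) ∧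
    (∀ v, lay v ≠ 4 → ∃ w, (v, w) ∈ E) ∧
    ∀ x y : Path E s 4 → ℝ, NE x y →
      ¬ ∃ q : Fin 9 → Fin 9 → ℝ, ∀ p, y p = ∏ i : Fin 4, q (p.1 i.castSucc) (p.1 i.succ) := by
  refine ⟨![0, 1, 1, 2, 2, 3, 3, 4, 4], E0, 0, by decide +kernel, by decide +kernel,
    by decide +kernel, by decide +kernel, fun x y ⟨hx, hy, h1, h2⟩ ⟨q, hq⟩ => ?_⟩
  let z : Path E0 0 4 → ℝ := fun p =>
    ![0, 0, 1 / 7, 1 / 7, 1 / 7, 1 / 7, 1 / 7, 2 / 7] ((Equiv.ofBijective _ bij).symm p)
  have hz : ∀ i, z (pth i) = ![0, 0, 1 / 7, 1 / 7, 1 / 7, 1 / 7, 1 / 7, 2 / 7] i := fun i => by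
    simp only [z]; rw [Equiv.ofBijective_symm_apply_apply]
  have h3 := h1 z ⟨fun p => by
    obtain ⟨i, rfl⟩ := bij.2 p
    rw [hz]; fin_cases i <;> norm_num, by
    simp only [← bij.sum_comp, hz, Fin.sum_univ_eight]; simp; norm_num⟩
  have sx := hx.2
  have sy := hy.2
  simp only [← bij.sum_comp, Fin.sum_univ_eight] at sx sy
  have h4 : 2 / 7 ≤ U x y := by
    refine le_trans ?_ h3
    rw [hU]
    simp [hz]
    linarith [hx.1 (pth 3), hx.1 (pth 4)]
  have h5 : ∀ i, 2 / 7 ≤ U (Pi.single (pth i) 1) y := fun i =>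
    h4.trans (h2 _ (single_mem_stdSimplex ℝ _))
  have a0 := h5 0
  have a2 := h5 2
  have a5 := h5 5
  have a6 := h5 6
  have a7 := h5 7
  simp [hU, bij.1.eq_iff] at a0 a2 a5 a6 a7
  have y0 := hy.1 (pth 0)
  have y1 := hy.1 (pth 1)
  have e1 : y (pth 2) * y (pth 5) = y (pth 7) * y (pth 0) := by
    simp [hq, Fin.prod_univ_four, pth, pv]; ring
  have e2 : y (pth 2) * y (pth 6) = y (pth 7) * y (pth 1) := by
    simp [hq, Fin.prod_univ_four, pth, pv]; ring
  have f0 : y (pth 0) = 0 := by linarith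
  have f1 : y (pth 1) = 0 := by linarith
  have f2 : y (pth 2) = 1 / 7 := by linarith
  rw [f0, f2] at e1
  rw [f1, f2] at e2
  linarith

end Pool.Agent.Results.MP_41928e_lc.No
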